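import Pool.Agent.H72.EN.Targets

/-! row WT3 of the board enl_modules (MP_c59857_nt) -/

set_option autoImplicit false

open Finset Pool.Agent.H6.N4D Pool.Agent.H93.EB Pool.Agent.H28.EN Pool.Agent.H72.EN

namespace Pool.Agent.H97.ENL

theorem pf_WT3 : T_WT3 := by
  intro A m₀ me j hA hm
  have hA0 : (0 : ℝ) ≤ A := Nat.cast_nonneg A
  rcases Nat.eq_zero_or_pos j with hj | hj
  · have h0 : ∀ m ∈ (Icc m₀ me).filter (fun m => m ≤ j ∧ j < A * m), 1 / (m : ℝ) = 0 := by
      intro m h
      rw [mem_filter, mem_Icc] at h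
      omega
    rw [sum_eq_zero h0]
    exact hA0
  · have hj0 : (0 : ℝ) < j := by exact_mod_cast hj
    set S := (Icc m₀ me).filter (fun m => m ≤ j ∧ j < A * m) with hS
    have hterm : ∀ m ∈ S, 1 / (m : ℝ) ≤ A / j := by
      intro m h
      rw [hS, mem_filter, mem_Icc] at h
      have h1 : (0 : ℝ) < m := by
        have : 0 < m := by omega
        exact_mod_cast this
      have h2 : (j : ℝ) ≤ A * m := by exact_mod_cast h.2.2.le
      rw [div_le_div_iff₀ h1 hj0]
      linarith
    have hsub : S ⊆ Icc 1 j := by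
      intro m h
      rw [hS, mem_filter, mem_Icc] at h
      rw [mem_Icc]
      omega
    have hcard : (S.card : ℝ) ≤ j := by
      have := card_le_card hsub
      rw [Nat.card_Icc, Nat.add_sub_cancel] at this
      exact_mod_cast this
    calc ∑ m ∈ S, 1 / (m : ℝ) ≤ ∑ m ∈ S, (A : ℝ) / j := sum_le_sum hterm
      _ = S.card * ((A : ℝ) / j) := by rw [sum_const, nsmul_eq_mul]
      _ ≤ j * ((A : ℝ) / j) := by gcongr
      _ = A := by field_simp

end Pool.Agent.H97.ENL
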